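import Mathlib
import Pool.Agent.Y740.Z.Stm

/-! Five numbers with three relations satisfy a relation with small exponents. -/

set_option autoImplicit false

namespace Pool.Agent.Y427.ZF

open Pool.Agent.Y740.Z NumberField Height Module

/-- The roots of unity of a number field. -/
lemma roots_of_unity (K : Type) [Field K] [NumberField K] : ∃ (M : ℕ) (ζ : K), 0 < M ∧
    IsPrimitiveRoot ζ M ∧
    ∀ Z : Finset K, (∀ g ∈ Z, ∃ m : ℕ, 0 < m ∧ g ^ m = 1) → Z.card ≤ M := by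
  classical
  set T := NumberField.Units.torsion K with hT
  obtain ⟨g, hg⟩ := IsCyclic.exists_ofOrder_eq_natCard (α := T)
  have hinj : Function.Injective (fun u : T => ((u : (𝓞 K)ˣ) : K)) := by
    intro u v h
    have h1 : ((u : (𝓞 K)ˣ) : 𝓞 K) = ((v : (𝓞 K)ˣ) : 𝓞 K) := RingOfIntegers.ext h
    exact Subtype.ext (Units.ext h1)
  let F : T →* K :=
    { toFun := fun u => ((u : (𝓞 K)ˣ) : K)
      map_one' := by simp
      map_mul' := fun a b => by simp }
  have hF : Function.Injective F := hinj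
  refine ⟨Nat.card T, F g, NumberField.Units.torsionOrder_pos K, ?_, ?_⟩
  · have h1 : IsPrimitiveRoot g (Nat.card T) := hg ▸ IsPrimitiveRoot.orderOf g
    exact h1.map_of_injective hF
  · intro Z hZ
    have h2 : ∀ z : Z, ∃ u : T, F u = z := by
      rintro ⟨z, hz⟩
      obtain ⟨m, hm, hzm⟩ := hZ z hz
      have hint : IsIntegral ℤ z := by
        refine IsIntegral.of_pow hm ?_
        rw [hzm]
        exact isIntegral_one
      let x : 𝓞 K := ⟨z, hint⟩
      have hx : x ^ m = 1 := by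
        apply RingOfIntegers.ext
        simpa [x] using hzm
      let u : (𝓞 K)ˣ := Units.ofPowEqOne x m hx hm.ne'
      have hu : (u : 𝓞 K) = x := rfl
      have hut : u ∈ T := by
        rw [hT]
        change IsOfFinOrder u
        rw [isOfFinOrder_iff_pow_eq_one]
        refine ⟨m, hm, ?_⟩
        apply Units.ext
        rw [Units.val_pow_eq_pow_val, hu, hx, Units.val_one]
      exact ⟨⟨u, hut⟩, rfl⟩
    choose f hf using h2
    have hfi : Function.Injective f := by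
      intro a b hab
      apply Subtype.ext
      rw [← hf a, ← hf b, hab]
    have h3 := Nat.card_le_card_of_injective f hfi
    simpa using h3

lemma totient_le (K : Type) [Field K] [NumberField K] {M : ℕ} {ζ : K} (hM : 0 < M)
    (hζ : IsPrimitiveRoot ζ M) : Nat.totient M ≤ finrank ℚ K := by
  have h1 := Polynomial.cyclotomic_eq_minpoly_rat hζ hM
  have h2 := minpoly.natDegree_le (A := ℚ) ζ
  rw [← h1, Polynomial.natDegree_cyclotomic] at h2
  exact h2

theorem t_REL : S_RD → S_PIG → S_TOT → S_REL := by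
  intro hRD hPIG hTOT B
  obtain ⟨c, hc, hRD⟩ := hRD
  set B' : ℝ := max 1 B with hB'
  have hB1 : 1 ≤ B' := le_max_left _ _
  have hl2 : 0 < Real.log 2 := Real.log_pos (by norm_num)
  set C1 : ℝ := 5 * B' / c + 1 / (Real.log 2) ^ 3 with hC1
  have hC1p : 0 < C1 := by positivity
  refine ⟨4 * (2 * C1 ^ 2 + 1 / (Real.log 2) ^ 6), ?_⟩
  intro K _ _ x hx0 hrel hx
  obtain ⟨M, ζ, hM, hζ, hZ⟩ := roots_of_unity K
  have hφn := totient_le K hM hζ
  set φ : ℕ := Nat.totient M with hφ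
  have hφ1 : 0 < φ := Nat.totient_pos.2 hM
  set n : ℕ := finrank ℚ K with hn
  have hφ' : (1 : ℝ) ≤ φ := by exact_mod_cast hφ1
  have hφn' : (φ : ℝ) ≤ n := by exact_mod_cast hφn
  have hn1 : (1 : ℝ) ≤ n := hφ'.trans hφn'
  set l : ℝ := Real.log (2 * n) with hl
  have hll : Real.log 2 ≤ l := Real.log_le_log (by norm_num) (by linarith)
  have hl0 : 0 < l := hl2.trans_le hll
  set lam : ℝ := c * φ / l ^ 3 with hlam
  have hlam0 : 0 < lam := by positivity
  set H : ℝ := B' * n with hH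
  have hH0 : 0 < H := by positivity
  -- the size of the exponents
  set Q : ℝ := 2 * C1 ^ 2 * n ^ 2 * l ^ 6 with hQ
  have hQ0 : 0 < Q := by positivity
  set a : ℝ := Q ^ ((3 : ℕ) : ℝ)⁻¹ with ha
  have ha0 : 0 < a := Real.rpow_pos_of_pos hQ0 _
  have ha3 : a ^ 3 = Q := Real.rpow_inv_natCast_pow hQ0.le (by norm_num)
  set T : ℕ := ⌈a⌉₊ with hT
  have hTa : a ≤ T := Nat.le_ceil a
  have hTa' : (T : ℝ) < a + 1 := Nat.ceil_lt_add_one ha0.le
  have hT1 : 1 ≤ T := Nat.one_le_ceil_iff.2 ha0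
  have hT1' : (1 : ℝ) ≤ T := by exact_mod_cast hT1
  have hTQ : Q ≤ (T : ℝ) ^ 3 := by rw [← ha3]; gcongr
  set k : ℕ := ⌊5 * T * H / lam⌋₊ + 1 with hk
  have hk1 : 5 * T * H / lam < k := by
    rw [hk]; push_cast; exact Nat.lt_floor_add_one _
  have hk2 : (k : ℝ) ≤ 5 * T * H / lam + 1 := by
    rw [hk]; push_cast
    have := Nat.floor_le (a := 5 * T * H / lam) (by positivity)
    linarith
  have hk3 : (k : ℝ) ≤ C1 * (T * n * l ^ 3 / φ) := by
    have e1 : 5 * T * H / lam = 5 * B' / c * (T * n * l ^ 3 / φ) := by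
      rw [hlam, hH]
      field_simp
    have e2 : 1 ≤ 1 / (Real.log 2) ^ 3 * (T * n * l ^ 3 / φ) := by
      rw [div_mul_div_comm, one_mul, le_div_iff₀ (by positivity), one_mul]
      have f1 : (Real.log 2) ^ 3 ≤ l ^ 3 := by gcongr
      calc (Real.log 2) ^ 3 * φ ≤ l ^ 3 * n := by gcongr
        _ = 1 * n * l ^ 3 := by ring
        _ ≤ T * n * l ^ 3 := by gcongr
    rw [e1] at hk2
    rw [hC1, add_mul]
    linarith
  have hMT : (M : ℝ) ≤ 2 * (φ : ℝ) ^ 2 := by exact_mod_cast hTOT M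
  have hmain : M * k ^ (5 - 3) < (T + 1) ^ 5 := by
    have h1 : (M : ℝ) * k ^ 2 ≤ (T : ℝ) ^ 5 := by
      calc (M : ℝ) * k ^ 2 ≤ 2 * (φ : ℝ) ^ 2 * (C1 * (T * n * l ^ 3 / φ)) ^ 2 := by gcongr
        _ = T ^ 2 * Q := by
            rw [hQ]
            field_simp
        _ ≤ (T : ℝ) ^ 2 * T ^ 3 := by gcongr
        _ = (T : ℝ) ^ 5 := by ring
    have h2 : M * k ^ 2 ≤ T ^ 5 := by exact_mod_cast h1
    exact lt_of_le_of_lt h2 (Nat.pow_lt_pow_left (Nat.lt_succ_self T) (by norm_num))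
  obtain ⟨b, hb0, hbT, hb1⟩ := hPIG K 5 3 x hx0 hrel H lam hlam0 (fun j => (hx j).trans (by
      rw [hH]; gcongr; exact le_max_right _ _)) (fun g hg0 hg1 => hRD K M ζ hM hζ g hg0 hg1)
    M T k hZ (by rw [hk]; exact Nat.succ_pos _) (by
      rw [div_lt_iff₀ hlam0] at hk1
      push_cast
      exact hk1) hmain
  refine ⟨b, hb0, hb1, fun j => ?_⟩
  have h3 : ((|b j| : ℤ) : ℝ) ≤ T := by exact_mod_cast hbT j
  have h4 : (0 : ℝ) ≤ ((|b j| : ℤ) : ℝ) := by exact_mod_cast abs_nonneg (b j)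
  have h5 : 1 ≤ 1 / (Real.log 2) ^ 6 * ((n : ℝ) ^ 2 * l ^ 6) := by
    rw [one_div_mul_eq_div, le_div_iff₀ (by positivity), one_mul]
    have f1 : (Real.log 2) ^ 6 ≤ l ^ 6 := by gcongr
    have f2 : (1 : ℝ) ≤ (n : ℝ) ^ 2 := one_le_pow₀ hn1
    calc (Real.log 2) ^ 6 ≤ 1 * l ^ 6 := by rw [one_mul]; exact f1
      _ ≤ (n : ℝ) ^ 2 * l ^ 6 := by gcongr
  calc ((|b j| : ℤ) : ℝ) ^ 3 ≤ (T : ℝ) ^ 3 := by gcongr
    _ ≤ (a + 1) ^ 3 := by gcongr
    _ ≤ 4 * (a ^ 3 + 1) := by nlinarith [sq_nonneg (a - 1), mul_nonneg ha0.le (sq_nonneg (a - 1))]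
    _ = 4 * (Q + 1) := by rw [ha3]
    _ ≤ 4 * (Q + 1 / (Real.log 2) ^ 6 * ((n : ℝ) ^ 2 * l ^ 6)) := by gcongr
    _ = 4 * (2 * C1 ^ 2 + 1 / (Real.log 2) ^ 6) * n ^ 2 * l ^ 6 := by rw [hQ]; ring

end Pool.Agent.Y427.ZF
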