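import Mathlib
import Pool.Agent.Y740.Z.Stm

/-! Specialisation of algebraic functions at a point. -/

set_option autoImplicit false

namespace Pool.Agent.Y427.ZF

open Pool.Agent.Y740.Z Polynomial

section valuations
variable {W Γ : Type*} [Field W] [LinearOrderedCommGroupWithZero Γ] (v : Valuation W Γ)

lemma root_le_one {p : W[X]} {η : W} (h0 : p.eval η = 0) (hc : ∀ i, v (p.coeff i) ≤ 1)
    (hl : v p.leadingCoeff = 1) : v η ≤ 1 := by
  by_contra h
  rw [not_le] at h
  rw [eval_eq_sum_range, Finset.sum_range_succ] at h0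
  have h1 : v (p.coeff p.natDegree * η ^ p.natDegree) = v η ^ p.natDegree := by
    rw [map_mul, map_pow]
    change v p.leadingCoeff * _ = _
    rw [hl, one_mul]
  rcases Nat.eq_zero_or_pos p.natDegree with hd | hd
  · rw [hd] at h0 h1
    simp only [Finset.range_zero, Finset.sum_empty, zero_add] at h0
    rw [h0, map_zero, pow_zero] at h1
    exact zero_ne_one h1
  · have h2 : p.coeff p.natDegree * η ^ p.natDegree =
        -∑ i ∈ Finset.range p.natDegree, p.coeff i * η ^ i := by
      linear_combination h0
    rw [h2, Valuation.map_neg] at h1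
    have h3 : v (∑ i ∈ Finset.range p.natDegree, p.coeff i * η ^ i) ≤
        v η ^ (p.natDegree - 1) := by
      refine Valuation.map_sum_le _ fun i hi => ?_
      rw [map_mul, map_pow]
      calc v (p.coeff i) * v η ^ i ≤ 1 * v η ^ i := mul_le_mul_left (hc i) _
        _ = v η ^ i := one_mul _
        _ ≤ v η ^ (p.natDegree - 1) :=
          pow_le_pow_right₀ h.le (by have := Finset.mem_range.1 hi; omega)
    rw [h1] at h3
    have h4 : v η ^ (p.natDegree - 1) < v η ^ p.natDegree :=
      pow_lt_pow_right₀ h (by omega)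
    exact absurd h3 (not_le.2 h4)

lemma one_le_root {p : W[X]} {η : W} (h0 : p.eval η = 0) (hc : ∀ i, v (p.coeff i) ≤ 1)
    (hl : v (p.coeff 0) = 1) : 1 ≤ v η := by
  by_contra h
  rw [not_le] at h
  rw [eval_eq_sum_range, Finset.sum_range_succ'] at h0
  have h2 : p.coeff 0 = -∑ i ∈ Finset.range p.natDegree, p.coeff (i + 1) * η ^ (i + 1) := by
    linear_combination h0
  have h3 : v (∑ i ∈ Finset.range p.natDegree, p.coeff (i + 1) * η ^ (i + 1)) ≤ v η := by
    refine Valuation.map_sum_le _ fun i hi => ?_
    rw [map_mul, map_pow]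
    calc v (p.coeff (i + 1)) * v η ^ (i + 1) ≤ 1 * v η ^ (i + 1) := mul_le_mul_left (hc _) _
      _ = v η ^ (i + 1) := one_mul _
      _ ≤ v η ^ 1 := pow_le_pow_right_of_le_one' h.le (by omega)
      _ = v η := pow_one _
  rw [h2, Valuation.map_neg] at hl
  rw [hl] at h3
  exact absurd h3 (not_le.2 h)

end valuations

theorem t_SPEC : S_PL → S_SPEC := by
  intro hPL k _ _ _ ι _ A s hA0 hAl
  classical
  set φ : k[X] →+* Alg k := algebraMap k[X] (Alg k) with hφ
  have hφinj : Function.Injective φ := by
    have h1 : φ = (algebraMap (RatFunc k) (Alg k)).comp (algebraMap k[X] (RatFunc k)) :=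
      IsScalarTower.algebraMap_eq _ _ _
    rw [h1]
    exact (algebraMap (RatFunc k) (Alg k)).injective.comp (RatFunc.algebraMap_injective k)
  have hφC : ∀ c : k, φ (C c) = algebraMap k (Alg k) c := fun c =>
    (IsScalarTower.algebraMap_apply k k[X] (Alg k) c).symm
  -- the uniformiser
  have ht : Transcendental k (φ (X - C s)) := by
    rintro ⟨P, hP0, hP⟩
    apply hP0
    have h1 : φ (P.comp (X - C s)) = 0 := by
      rw [← hP]
      have h2 : aeval (φ (X - C s)) P = φ (aeval (X - C s) P) :=
        aeval_algebraMap_apply (Alg k) (X - C s) P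
      rw [h2]
      rfl
    have h3 : P.comp (X - C s) = 0 := hφinj (by rw [h1, map_zero])
    have h4 := congrArg (fun Q : k[X] => Q.comp (X + C s)) h3
    simp only [comp_assoc, sub_comp, X_comp, C_comp, add_sub_cancel_right, comp_X, zero_comp] at h4
    exact h4
  obtain ⟨V, hVk, hVt⟩ := hPL k (Alg k) (φ (X - C s)) ht
  -- constants
  have hconst : ∀ c : k, c ≠ 0 → V.valuation (algebraMap k (Alg k) c) = 1 := by
    intro c hc
    have h1 := (V.valuation_le_one_iff _).2 (hVk c)
    have h2 := (V.valuation_le_one_iff _).2 (hVk c⁻¹)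
    rw [map_inv₀, map_inv₀] at h2
    apply le_antisymm h1
    by_contra h3
    rw [not_le] at h3
    have hc' : V.valuation (algebraMap k (Alg k) c) ≠ 0 := by
      rw [Valuation.ne_zero_iff]
      exact fun h => hc ((algebraMap k (Alg k)).injective (by rw [h, map_zero]))
    have h4 : 1 < (V.valuation (algebraMap k (Alg k) c))⁻¹ :=
      (one_lt_inv₀ (zero_lt_iff.2 hc')).2 h3
    exact absurd h2 (not_le.2 h4)
  have hX : φ X ∈ V := by
    have h1 : φ X = φ (X - C s) + algebraMap k (Alg k) s := by
      rw [← hφC, ← map_add, sub_add_cancel]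
    rw [h1]
    exact V.add_mem _ _ ((V.valuation_le_one_iff _).1 hVt.le) (hVk s)
  have hpoly : ∀ P : k[X], φ P ∈ V := by
    intro P
    induction P using Polynomial.induction_on with
    | C a => rw [hφC]; exact hVk a
    | add p q hp hq => rw [map_add]; exact V.add_mem _ _ hp hq
    | monomial n a h =>
      rw [pow_succ, ← mul_assoc, map_mul]
      exact V.mul_mem _ _ h hX
  have h1 : ∀ P : k[X], V.valuation (φ P) ≤ 1 := fun P => (V.valuation_le_one_iff _).2 (hpoly P)
  have hdiv : ∀ P : k[X], P.eval s = 0 → V.valuation (φ P) < 1 := by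
    intro P hP
    obtain ⟨Q, hQ⟩ := dvd_iff_isRoot.2 (show P.IsRoot s from hP)
    rw [hQ, map_mul, map_mul]
    calc V.valuation (φ (X - C s)) * V.valuation (φ Q) ≤ V.valuation (φ (X - C s)) * 1 :=
          mul_le_mul_right (h1 Q) _
      _ < 1 := by rw [mul_one]; exact hVt
  have h2 : ∀ P : k[X], V.valuation (φ P) < 1 → P.eval s = 0 := by
    intro P hP
    by_contra h3
    have h4 : V.valuation (φ (P - C (P.eval s))) < 1 := hdiv _ (by simp)
    have h5 : algebraMap k (Alg k) (P.eval s) = φ P - φ (P - C (P.eval s)) := by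
      rw [← hφC, ← map_sub, sub_sub_cancel]
    have h6 := hconst _ h3
    rw [h5] at h6
    exact absurd h6 (lt_of_le_of_lt (Valuation.map_sub _ _ _) (max_lt hP h4)).ne
  have h2' : ∀ P : k[X], P.eval s ≠ 0 → V.valuation (φ P) = 1 := fun P hP =>
    le_antisymm (h1 P) (not_lt.1 fun h => hP (h2 P h))
  -- the polynomials over the field of algebraic functions
  set p : ι → (Alg k)[X] := fun l => (A l).map φ with hp
  have hpc : ∀ l i, V.valuation ((p l).coeff i) ≤ 1 := by
    intro l i
    rw [hp]
    simp only [coeff_map]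
    exact h1 _
  have hpl : ∀ l, V.valuation (p l).leadingCoeff = 1 := by
    intro l
    rw [hp]
    simp only
    rw [leadingCoeff_map_of_injective hφinj]
    exact h2' _ (hAl l)
  have hp0 : ∀ l, V.valuation ((p l).coeff 0) = 1 := by
    intro l
    rw [hp]
    simp only [coeff_map]
    exact h2' _ (hA0 l)
  have hpne : ∀ l, p l ≠ 0 := by
    intro l h
    have := hpl l
    rw [h, leadingCoeff_zero, map_zero] at this
    exact zero_ne_one this
  have hrt : ∀ l η, IsRt (A l) η ↔ (p l).eval η = 0 := by
    intro l η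
    rw [hp]
    simp only [eval_map]
    rfl
  have h3 : ∀ l η, IsRt (A l) η → V.valuation η = 1 := by
    intro l η h
    rw [hrt] at h
    exact le_antisymm (root_le_one V.valuation h (hpc l) (hpl l))
      (one_le_root V.valuation h (hpc l) (hp0 l))
  refine ⟨V, h1, h2, h3, ?_⟩
  intro x hx
  -- the value of the polynomial at the constant
  have hval : ∀ l, V.valuation ((p l).eval (algebraMap k (Alg k) (x l))) < 1 := by
    intro l
    have e1 : (p l).eval (algebraMap k (Alg k) (x l)) = φ ((A l).eval (C (x l))) := by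
      rw [hp]
      simp only [eval_map]
      rw [← hφC, eval₂_at_apply]
    rw [e1]
    apply hdiv
    have e2 := hx l
    unfold ev at e2
    have e3 : ((A l).eval (C (x l))).eval s =
        (A l).eval₂ (Polynomial.aeval s : k[X] →ₐ[k] k).toRingHom (x l) := by
      have e4 := Polynomial.eval₂_at_apply (p := A l)
        (Polynomial.aeval s : k[X] →ₐ[k] k).toRingHom (C (x l))
      have e5 : (Polynomial.aeval s : k[X] →ₐ[k] k).toRingHom (C (x l)) = x l := by simp
      rw [e5] at e4
      rw [e4]
      simp [Polynomial.aeval_def, Polynomial.eval₂_eq_eval_map]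
    rw [e3]
    exact e2
  have hex : ∀ l, ∃ η, IsRt (A l) η ∧
      V.valuation (algebraMap k (Alg k) (x l) - η) < 1 := by
    intro l
    by_contra hno
    push Not at hno
    have e1 : (p l).eval (algebraMap k (Alg k) (x l)) =
        (p l).leadingCoeff * ((p l).roots.map (algebraMap k (Alg k) (x l) - ·)).prod :=
      (IsAlgClosed.splits (p l)).eval_eq_prod_roots _
    have e2 : V.valuation ((p l).roots.map (algebraMap k (Alg k) (x l) - ·)).prod = 1 := by
      rw [map_multiset_prod]
      apply Multiset.prod_eq_one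
      intro y hy
      rw [Multiset.mem_map] at hy
      obtain ⟨z, hz, rfl⟩ := hy
      rw [Multiset.mem_map] at hz
      obtain ⟨η, hη, rfl⟩ := hz
      have hη' : IsRt (A l) η := by
        rw [hrt]
        exact (mem_roots (hpne l)).1 hη
      apply le_antisymm
      · refine (Valuation.map_sub _ _ _).trans (max_le ?_ (h3 l η hη').le)
        exact (V.valuation_le_one_iff _).2 (hVk _)
      · exact hno η hη'
    have e3 := hval l
    rw [e1, map_mul, hpl, e2, one_mul] at e3
    exact lt_irrefl _ e3
  choose η hη hηx using hex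
  refine ⟨η, hη, ?_⟩
  intro w
  have hx1 : ∀ l, V.valuation (algebraMap k (Alg k) (x l)) = 1 := by
    intro l
    have e1 : V.valuation (algebraMap k (Alg k) (x l)) = V.valuation (η l) := by
      apply Valuation.map_eq_of_sub_lt
      rw [h3 l _ (hη l), Valuation.map_sub_swap]
      rw [Valuation.map_sub_swap]
      exact hηx l
    rw [e1, h3 l _ (hη l)]
  have hx0 : ∀ l, x l ≠ 0 := by
    intro l h
    have := hx1 l
    rw [h, map_zero, map_zero] at this
    exact zero_ne_one this
  have hxn : ∀ l, algebraMap k (Alg k) (x l) ≠ 0 := fun l h =>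
    hx0 l ((algebraMap k (Alg k)).injective (by rw [h, map_zero]))
  have hηn : ∀ l, η l ≠ 0 := by
    intro l h
    have := h3 l _ (hη l)
    rw [h, map_zero] at this
    exact zero_ne_one this
  -- principal units
  have hpu : ∀ l, Units.mk0 (η l / algebraMap k (Alg k) (x l)) (div_ne_zero (hηn l) (hxn l)) ∈
      V.principalUnitGroup := by
    intro l
    rw [V.mem_principalUnitGroup_iff, Units.val_mk0]
    have e1 : η l / algebraMap k (Alg k) (x l) - 1 =
        (η l - algebraMap k (Alg k) (x l)) / algebraMap k (Alg k) (x l) := by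
      rw [sub_div, div_self (hxn l)]
    rw [e1, map_div₀, hx1, div_one, Valuation.map_sub_swap]
    exact hηx l
  have hprod : (∏ l, Units.mk0 (η l / algebraMap k (Alg k) (x l))
      (div_ne_zero (hηn l) (hxn l)) ^ w l) ∈ V.principalUnitGroup :=
    Subgroup.prod_mem _ fun l _ => Subgroup.zpow_mem _ (hpu l) _
  rw [V.mem_principalUnitGroup_iff] at hprod
  have e2 : ((∏ l, Units.mk0 (η l / algebraMap k (Alg k) (x l))
      (div_ne_zero (hηn l) (hxn l)) ^ w l : (Alg k)ˣ) : Alg k) =
      (∏ l, η l ^ w l) / algebraMap k (Alg k) (∏ l, x l ^ w l) := by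
    rw [Units.coe_prod, map_prod, ← Finset.prod_div_distrib]
    refine Finset.prod_congr rfl fun l _ => ?_
    rw [Units.val_zpow_eq_zpow_val, Units.val_mk0, div_zpow, map_zpow₀]
  rw [e2] at hprod
  set P : k := ∏ l, x l ^ w l with hP
  have hP0 : P ≠ 0 := Finset.prod_ne_zero_iff.2 fun l _ => zpow_ne_zero _ (hx0 l)
  have hPn : algebraMap k (Alg k) P ≠ 0 := fun h =>
    hP0 ((algebraMap k (Alg k)).injective (by rw [h, map_zero]))
  have e3 : V.valuation (∏ l, η l ^ w l - algebraMap k (Alg k) P) < 1 := by
    have e4 : ∏ l, η l ^ w l - algebraMap k (Alg k) P =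
        algebraMap k (Alg k) P * ((∏ l, η l ^ w l) / algebraMap k (Alg k) P - 1) := by
      field_simp
    rw [e4, map_mul, hconst P hP0, one_mul]
    exact hprod
  constructor
  · intro h
    by_contra hne
    have h4 : P - 1 ≠ 0 := sub_ne_zero.2 hne
    have h5 := hconst _ h4
    have h6 : algebraMap k (Alg k) (P - 1) =
        (∏ l, η l ^ w l - 1) - (∏ l, η l ^ w l - algebraMap k (Alg k) P) := by
      rw [map_sub, map_one]; ring
    rw [h6] at h5
    exact absurd h5 (lt_of_le_of_lt (Valuation.map_sub _ _ _) (max_lt h e3)).ne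
  · intro h
    rw [h, map_one] at e3
    exact e3

end Pool.Agent.Y427.ZF
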